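import Mathlib
import Pool.Agent.H242.GX.Stm

set_option autoImplicit false

/-! Derivative bounds in logarithmic coordinates. -/

namespace Pool.Agent.H580.GX

open Pool.Agent.H242.GX Set
open scoped ContDiff

section
variable {E : Type} [NormedAddCommGroup E] [NormedSpace ℝ E]

/-- the function in logarithmic coordinates -/
noncomputable def Gm (lam : ℝ) (m : ℕ) (f : ℝ × ℝ → E) (x : ℝ × ℝ) : E :=
  Real.exp (m * x.2) • f (x.1, lam * Real.exp x.2)

/-- the linear map `(a, b) ↦ (a, t b)` -/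
noncomputable def lq (t : ℝ) : ℝ × ℝ →L[ℝ] ℝ × ℝ :=
  (ContinuousLinearMap.inl ℝ ℝ ℝ).comp (ContinuousLinearMap.fst ℝ ℝ ℝ) +
    t • (ContinuousLinearMap.inr ℝ ℝ ℝ).comp (ContinuousLinearMap.snd ℝ ℝ ℝ)

/-- the derivative in logarithmic coordinates -/
noncomputable def ft (m : ℕ) (f : ℝ × ℝ → E) (z : ℝ × ℝ) : ℝ × ℝ →L[ℝ] E :=
  (m : ℝ) • (ContinuousLinearMap.snd ℝ ℝ ℝ).smulRight (f z) + (fderiv ℝ f z).comp (lq z.2)

theorem ft_smooth (m : ℕ) (f : ℝ × ℝ → E) (hf : ContDiff ℝ ∞ f) : ContDiff ℝ ∞ (ft m f) := by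
  unfold ft
  refine ContDiff.add ?_ ?_
  · refine ContDiff.const_smul _ ?_
    exact ContDiff.smulRight contDiff_const hf
  · refine ContDiff.clm_comp (hf.fderiv_right (m := ∞) (by simp)) ?_
    unfold lq
    exact contDiff_const.add (contDiff_snd.smul contDiff_const)

theorem fderiv_per (f : ℝ × ℝ → E) (hp : ∀ θ t : ℝ, f (θ + 2 * Real.pi, t) = f (θ, t)) (θ t : ℝ) :
    fderiv ℝ f (θ + 2 * Real.pi, t) = fderiv ℝ f (θ, t) := by
  have h1 : (fun x : ℝ × ℝ => f (x + ((2 * Real.pi, 0) : ℝ × ℝ))) = f := by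
    funext x
    have := hp x.1 x.2
    rw [← this]
    congr 1
    ext <;> simp
  have h2 := fderiv_comp_add_right (𝕜 := ℝ) (f := f) (x := ((θ, t) : ℝ × ℝ)) (2 * Real.pi, (0 : ℝ))
  rw [h1] at h2
  rw [h2]
  congr 1
  ext <;> simp

theorem ft_per (m : ℕ) (f : ℝ × ℝ → E) (hp : ∀ θ t : ℝ, f (θ + 2 * Real.pi, t) = f (θ, t))
    (θ t : ℝ) : ft m f (θ + 2 * Real.pi, t) = ft m f (θ, t) := by
  unfold ft
  simp only
  rw [hp, fderiv_per f hp]

theorem Gm_deriv (lam : ℝ) (m : ℕ) (f : ℝ × ℝ → E) (hf : ContDiff ℝ ∞ f) :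
    fderiv ℝ (Gm lam m f) = Gm lam m (ft m f) := by
  funext x
  apply HasFDerivAt.fderiv
  have hd : Differentiable ℝ f := hf.differentiable (by simp)
  have h1 : HasFDerivAt (fun x : ℝ × ℝ => Real.exp (m * x.2))
      (Real.exp (m * x.2) • ((m : ℝ) • ContinuousLinearMap.snd ℝ ℝ ℝ)) x :=
    (hasFDerivAt_snd.const_mul (m : ℝ)).exp
  have h2 : HasFDerivAt (fun x : ℝ × ℝ => lam * Real.exp x.2)
      (lam • (Real.exp x.2 • ContinuousLinearMap.snd ℝ ℝ ℝ)) x :=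
    (hasFDerivAt_snd.exp).const_mul lam
  have h3 : HasFDerivAt (fun x : ℝ × ℝ => (x.1, lam * Real.exp x.2))
      ((ContinuousLinearMap.fst ℝ ℝ ℝ).prod
        (lam • (Real.exp x.2 • ContinuousLinearMap.snd ℝ ℝ ℝ))) x :=
    hasFDerivAt_fst.prodMk h2
  have h4 : HasFDerivAt f (fderiv ℝ f (x.1, lam * Real.exp x.2)) (x.1, lam * Real.exp x.2) :=
    (hd _).hasFDerivAt
  have h5 := h4.comp x h3
  have h6 := h1.smul h5
  refine h6.congr_fderiv ?_
  refine ContinuousLinearMap.ext fun v => ?_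
  have e1 : ((v.1, (0 : ℝ)) : ℝ × ℝ) + (lam * Real.exp x.2) • ((0 : ℝ), v.2) =
      (v.1, lam * (Real.exp x.2 * v.2)) := by
    ext
    · simp
    · simp [mul_assoc]
  unfold Gm ft lq
  simp only [ContinuousLinearMap.add_apply, ContinuousLinearMap.smul_apply,
    ContinuousLinearMap.smulRight_apply, ContinuousLinearMap.comp_apply,
    ContinuousLinearMap.prod_apply, ContinuousLinearMap.coe_fst', ContinuousLinearMap.coe_snd',
    ContinuousLinearMap.inl_apply, ContinuousLinearMap.inr_apply, Function.comp_apply,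
    smul_eq_mul]
  rw [e1, smul_add, smul_smul, smul_smul, add_comm, mul_assoc]

end

theorem gen (lam : ℝ) (hl : 0 < lam) (m : ℕ) (i : ℕ) : ∀ (E : Type) [NormedAddCommGroup E]
    [NormedSpace ℝ E] (f : ℝ × ℝ → E), ContDiff ℝ ∞ f →
    (∀ θ t : ℝ, f (θ + 2 * Real.pi, t) = f (θ, t)) →
    ∃ C : ℝ, ∀ x : ℝ × ℝ, x.2 ≤ 0 →
      ‖iteratedFDeriv ℝ i (Gm lam m f) x‖ ≤ C * Real.exp (m * x.2) := by
  induction i with
  | zero =>
    intro E _ _ f hf hp
    have hK : IsCompact (Icc (0 : ℝ) (2 * Real.pi) ×ˢ Icc (0 : ℝ) lam) :=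
      isCompact_Icc.prod isCompact_Icc
    obtain ⟨C, hC⟩ := hK.exists_bound_of_continuousOn (f := f) hf.continuous.continuousOn
    refine ⟨C, fun x hx => ?_⟩
    rw [norm_iteratedFDeriv_zero]
    unfold Gm
    rw [norm_smul, Real.norm_eq_abs, abs_of_pos (Real.exp_pos _), mul_comm]
    refine mul_le_mul_of_nonneg_right ?_ (Real.exp_pos _).le
    have hper : Function.Periodic (fun θ => f (θ, lam * Real.exp x.2)) (2 * Real.pi) :=
      fun θ => hp θ _
    obtain ⟨y, hy, hye⟩ := hper.exists_mem_Ico₀ Real.two_pi_pos x.1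
    have hye' : f (x.1, lam * Real.exp x.2) = f (y, lam * Real.exp x.2) := hye
    rw [hye']
    refine hC _ ⟨Ico_subset_Icc_self hy, by positivity, ?_⟩
    have := Real.exp_le_one_iff.2 hx
    show lam * Real.exp x.2 ≤ lam
    nlinarith
  | succ i ih =>
    intro E _ _ f hf hp
    obtain ⟨C, hC⟩ := ih (ℝ × ℝ →L[ℝ] E) (ft m f) (ft_smooth m f hf) (ft_per m f hp)
    refine ⟨C, fun x hx => ?_⟩
    rw [← norm_iteratedFDeriv_fderiv, Gm_deriv lam m f hf]
    exact hC x hx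

theorem gx_LOGB : S_LOGB := by
  intro f lam m hl hf hp i
  obtain ⟨C, hC⟩ := gen lam hl m i ℝ f hf hp
  refine ⟨C, fun x hx => ?_⟩
  have e : (fun x : ℝ × ℝ => Real.exp x.2 ^ m * f (x.1, lam * Real.exp x.2)) = Gm lam m f := by
    funext x
    unfold Gm
    rw [Real.exp_nat_mul, smul_eq_mul]
  rw [e]
  exact hC x hx

end Pool.Agent.H580.GX
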