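import Mathlib
import Pool.Agent.H242.GX.Stm

set_option autoImplicit false

/-! The maximum of the support difference. -/

namespace Pool.Agent.H580.GX

open Pool.Agent.H242.GX Set
open scoped ContDiff

theorem gx_MAX : S_MAX := by
  intro p hp z
  obtain ⟨f, hf⟩ : ∃ f : ℝ → ℝ, f = fun α => z.re * Real.sin α - z.im * Real.cos α - p α :=
    ⟨_, rfl⟩
  have hfe : ∀ α, f α = ip z (nu α) - p α := by
    intro α
    rw [hf]
    unfold ip nu
    simp only
    ring
  have hpd : Differentiable ℝ p := hp.smooth.differentiable (by simp)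
  have hder : ∀ α, HasDerivAt f (z.re * Real.cos α + z.im * Real.sin α - deriv p α) α := by
    intro α
    rw [hf]
    have h1 := (Real.hasDerivAt_sin α).const_mul z.re
    have h2 := (Real.hasDerivAt_cos α).const_mul z.im
    have h3 := (hpd α).hasDerivAt
    have h4 := (h1.sub h2).sub h3
    refine h4.congr_deriv ?_
    ring
  have hcont : Continuous f := by
    rw [continuous_iff_continuousAt]
    exact fun α => (hder α).continuousAt
  have hper : Function.Periodic f (2 * Real.pi) := by
    intro α
    rw [hf]
    simp only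
    rw [Real.sin_add_two_pi, Real.cos_add_two_pi, hp.per]
  obtain ⟨φ, -, hφ⟩ := (isCompact_Icc (a := (0 : ℝ)) (b := 2 * Real.pi)).exists_isMaxOn
    ⟨0, by constructor <;> positivity⟩ hcont.continuousOn
  have hmax : ∀ α, f α ≤ f φ := by
    intro α
    obtain ⟨β, hβ, hβe⟩ := hper.exists_mem_Ico₀ Real.two_pi_pos α
    rw [hβe]
    exact hφ (Ico_subset_Icc_self hβ)
  have hd0 : z.re * Real.cos φ + z.im * Real.sin φ - deriv p φ = 0 := by
    have h1 : IsLocalMax f φ := Filter.Eventually.of_forall hmax
    have h2 := h1.deriv_eq_zero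
    rw [(hder φ).deriv] at h2
    exact h2
  refine ⟨φ, f φ, ?_, fun α => ?_⟩
  · have hd1 : deriv p φ = z.re * Real.cos φ + z.im * Real.sin φ := by linarith
    have h1 : f φ = z.re * Real.sin φ - z.im * Real.cos φ - p φ := by rw [hf]
    have hsc := Real.sin_sq_add_cos_sq φ
    unfold Psi gam nu e
    rw [hd1, h1]
    apply Complex.ext
    · simp only [Complex.add_re, Complex.smul_re, smul_eq_mul]
      linear_combination z.re * hsc
    · simp only [Complex.add_im, Complex.smul_im, smul_eq_mul]
      linear_combination z.im * hsc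
  · have h1 := hmax α
    rw [hfe α] at h1
    linarith

end Pool.Agent.H580.GX
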